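import Pool.Agent.Helper54.PT.DefsE

/-! Quadratic twists: module D6d, the local conditions define maximal totally singular
subspaces. -/

set_option autoImplicit false

namespace Pool.Agent.Helper54.PT

open Polynomial Finset Filter Topology Module

/-! ### linear algebra -/

section Lin

variable {K V : Type} [Field K] [AddCommGroup V] [Module K V]

lemma d6d_graph1 (A : V →ₗ[K] V) : ∃ L : Submodule K (V × V),
    (∀ x z, (x, z) ∈ L ↔ z = A x) ∧ finrank K L = finrank K V := by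
  refine ⟨LinearMap.range (LinearMap.id.prod A), ?_, ?_⟩
  · intro x z
    rw [LinearMap.mem_range]
    constructor
    · rintro ⟨y, hy⟩
      have h1 : y = x := congrArg Prod.fst hy
      have h2 : A y = z := congrArg Prod.snd hy
      rw [← h2, h1]
    · intro h
      exact ⟨x, Prod.ext rfl h.symm⟩
  · refine LinearMap.finrank_range_of_inj ?_
    intro x y h
    exact congrArg Prod.fst h

lemma d6d_graph2 (A : V →ₗ[K] V) : ∃ L : Submodule K (V × V),
    (∀ x z, (x, z) ∈ L ↔ x = A z) ∧ finrank K L = finrank K V := by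
  refine ⟨LinearMap.range (A.prod LinearMap.id), ?_, ?_⟩
  · intro x z
    rw [LinearMap.mem_range]
    constructor
    · rintro ⟨y, hy⟩
      have h1 : A y = x := congrArg Prod.fst hy
      have h2 : y = z := congrArg Prod.snd hy
      rw [← h1, h2]
    · intro h
      exact ⟨z, Prod.ext h.symm rfl⟩
  · refine LinearMap.finrank_range_of_inj ?_
    intro x y h
    exact congrArg Prod.snd h

lemma d6d_line [Module.Finite K V] (e z₀ : V) (he : e ≠ 0) (φ ψ : V →ₗ[K] K) (hφ : φ z₀ = 1) :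
    ∃ L : Submodule K (V × V),
    (∀ x z, (x, z) ∈ L ↔ (∃ t : K, x = t • e) ∧ φ z = ψ x) ∧ finrank K L = finrank K V := by
  let f : (K × LinearMap.ker φ) →ₗ[K] V × V :=
    { toFun := fun y => (y.1 • e, y.2.1 + (y.1 * ψ e) • z₀)
      map_add' := by
        intro y y'
        ext
        · simp [add_smul]
        · simp only [Prod.fst_add, Prod.snd_add, Submodule.coe_add, add_mul, add_smul]
          abel
      map_smul' := by
        intro c y
        ext
        · simp [mul_smul]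
        · simp [mul_smul, mul_assoc, smul_add] }
  have hf : Function.Injective f := by
    intro y y' h
    have h1 : y.1 • e = y'.1 • e := congrArg Prod.fst h
    have h2 : y.2.1 + (y.1 * ψ e) • z₀ = y'.2.1 + (y'.1 * ψ e) • z₀ := congrArg Prod.snd h
    have h3 : y.1 = y'.1 := smul_left_injective K he h1
    rw [h3] at h2
    have h4 := add_right_cancel h2
    exact Prod.ext h3 (Subtype.ext h4)
  refine ⟨LinearMap.range f, ?_, ?_⟩
  · intro x z
    rw [LinearMap.mem_range]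
    constructor
    · rintro ⟨y, hy⟩
      have h1 : y.1 • e = x := congrArg Prod.fst hy
      have h2 : y.2.1 + (y.1 * ψ e) • z₀ = z := congrArg Prod.snd hy
      refine ⟨⟨y.1, h1.symm⟩, ?_⟩
      have h3 : φ y.2.1 = 0 := y.2.2
      rw [← h2, ← h1, map_add, h3, map_smul, hφ, map_smul, zero_add, smul_eq_mul, mul_one,
        smul_eq_mul]
    · rintro ⟨⟨t, ht⟩, h⟩
      have h4 : z - (t * ψ e) • z₀ ∈ LinearMap.ker φ := by
        rw [LinearMap.mem_ker, map_sub, map_smul, hφ, h, ht, map_smul, smul_eq_mul, smul_eq_mul,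
          mul_one, sub_self]
      refine ⟨(t, ⟨_, h4⟩), ?_⟩
      change (t • e, z - (t * ψ e) • z₀ + (t * ψ e) • z₀) = (x, z)
      rw [← ht, sub_add_cancel]
  · rw [LinearMap.finrank_range_of_inj hf, Module.finrank_prod, Module.finrank_self]
    have h1 := LinearMap.finrank_range_add_finrank_ker φ
    have h2 : LinearMap.range φ = ⊤ := by
      rw [LinearMap.range_eq_top]
      intro c
      exact ⟨c • z₀, by rw [map_smul, hφ, smul_eq_mul, mul_one]⟩
    rw [h2, finrank_top, Module.finrank_self] at h1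
    exact h1

end Lin

section Twist

variable {ι : Type} [Fintype ι] [DecidableEq ι] (a : ι → ℕ) (i₀ : ι)
  {σ : Type} [Fintype σ] [DecidableEq σ] (i₁ i₂ : σ → ι) (lgl : ι → ι → ZMod 2)
  (dR : σ → ZMod 2) (sR : σ → σ → ZMod 2) (X : PData 2 σ) (D : Finset X.P)

omit [Fintype ι] [DecidableEq ι] in
lemma d6d_a (ha : ∀ i, ¬ 2 ∣ a i) (i : ι) : (a i : ZMod 2) = 1 := by
  have h := ha i
  rw [← ZMod.natCast_eq_zero_iff] at h
  generalize (a i : ZMod 2) = y at h ⊢
  revert y
  decide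

lemma d6d_asum (hs : ¬ 2 ∣ ∑ i, a i) : asum 2 a = 1 := by
  rw [← ZMod.natCast_eq_zero_iff] at hs
  unfold asum
  rw [Nat.cast_sum] at hs
  generalize (∑ i, (a i : ZMod 2)) = y at hs ⊢
  revert y
  decide

lemma d6d_sum_ext (ha : ∀ i, ¬ 2 ∣ a i) (v : {j : ι // j ≠ i₀} → ZMod 2) :
    ∑ i, ext a i₀ v i = 0 := by
  have h1 : ∑ i, ext a i₀ v i = ext a i₀ v i₀ + ∑ j : {j : ι // j ≠ i₀}, v j := by
    rw [← Finset.add_sum_erase univ _ (Finset.mem_univ i₀)]
    congr 1
    rw [Finset.sum_subtype (univ.erase i₀) (p := fun j => j ≠ i₀) (by simp)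
      (fun i => ext a i₀ v i)]
    refine sum_congr rfl fun j _ => ?_
    unfold ext
    rw [dif_neg j.2]
  rw [h1]
  unfold ext
  rw [dif_pos rfl, d6d_a a ha i₀]
  have h2 : ∑ j : {j : ι // j ≠ i₀}, (a j.1 : ZMod 2) * v j = ∑ j, v j :=
    sum_congr rfl fun j _ => by rw [d6d_a a ha, one_mul]
  rw [h2]
  simp [CharTwo.neg_eq, CharTwo.add_self_eq_zero]

/-- functions with sum zero are extensions -/
lemma d6d_ext (ha : ∀ i, ¬ 2 ∣ a i) (W : ι → ZMod 2) (hW : ∑ i, W i = 0) :
    ext a i₀ (fun j => W j.1) = W := by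
  have h1 := d6d_sum_ext a i₀ ha (fun j => W j.1)
  have h2 : ∀ i, i ≠ i₀ → ext a i₀ (fun j => W j.1) i = W i := by
    intro i hi
    unfold ext
    rw [dif_neg hi]
  funext i
  by_cases hi : i = i₀
  · subst hi
    rw [← Finset.add_sum_erase univ _ (Finset.mem_univ i)] at h1 hW
    have h3 : ∑ x ∈ univ.erase i, ext a i (fun j => W j.1) x = ∑ x ∈ univ.erase i, W x :=
      sum_congr rfl fun x hx => h2 x (Finset.ne_of_mem_erase hx)
    rw [h3] at h1
    exact add_right_cancel (h1.trans hW.symm)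
  · exact h2 i hi

lemma d6d_ext_smul (c : ZMod 2) (v : {j : ι // j ≠ i₀} → ZMod 2) (i : ι) :
    ext a i₀ (fun j => c * v j) i = c * ext a i₀ v i := by
  unfold ext
  split_ifs
  · rw [mul_neg]
    congr 1
    rw [mul_left_comm]
    congr 1
    rw [Finset.mul_sum]
    exact sum_congr rfl fun j _ => by ring
  · rfl

/-- symmetric double sums vanish in characteristic two -/
lemma d6d_symm (f : ι → ι → ZMod 2) (hf : ∀ i m, f i m = f m i) (h0 : ∀ i, f i i = 0) :
    ∑ i, ∑ m, f i m = 0 := by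
  rw [← Finset.sum_product']
  refine Finset.sum_involution (fun x _ => (x.2, x.1)) ?_ ?_ ?_ ?_
  · intro x _
    rw [hf x.2 x.1]
    exact CharTwo.add_self_eq_zero _
  · intro x _ h hx
    have h2 : x.2 = x.1 := congrArg Prod.fst hx
    apply h
    rw [h2]
    exact h0 _
  · intro x _
    exact Finset.mem_product.2 ⟨Finset.mem_univ _, Finset.mem_univ _⟩
  · intro x _
    rfl

lemma d6d_two (i m : ι) (him : i ≠ m) (f : ι → ZMod 2) (A B : ZMod 2) :
    ∑ j, f j * (if j = i then A else if j = m then B else 0) = f i * A + f m * B := by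
  have h : ∀ j, f j * (if j = i then A else if j = m then B else 0) =
      (if j = i then f i * A else 0) + if j = m then f m * B else 0 := by
    intro j
    by_cases h1 : j = i
    · subst h1
      rw [if_pos rfl, if_pos rfl, if_neg him, add_zero]
    · rw [if_neg h1, if_neg h1, zero_add]
      by_cases h2 : j = m
      · subst h2
        rw [if_pos rfl, if_pos rfl]
      · rw [if_neg h2, if_neg h2, mul_zero]
  rw [Finset.sum_congr rfl fun j _ => h j, Finset.sum_add_distrib, Finset.sum_ite_eq' univ,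
    Finset.sum_ite_eq' univ, if_pos (Finset.mem_univ _), if_pos (Finset.mem_univ _)]

lemma d6d_tau_some (ha : ∀ i, ¬ 2 ∣ a i) (hs : ¬ 2 ∣ ∑ i, a i) (w : ι → ZMod 2) (j : ι) (r : σ) :
    tauX a i₁ i₂ lgl w j (some r) = if j = i₁ r then w (i₁ r) + w (i₂ r) else
      if j = i₂ r then w (i₁ r) + w (i₂ r) else 0 := by
  change (if j = i₁ r then (a (i₂ r) : ZMod 2) * (asum 2 a)⁻¹ * (w (i₁ r) - w (i₂ r))
      else if j = i₂ r then (a (i₁ r) : ZMod 2) * (asum 2 a)⁻¹ * (w (i₂ r) - w (i₁ r)) else 0) = _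
  rw [d6d_asum a hs, d6d_a a ha, d6d_a a ha, inv_one, CharTwo.sub_eq_add, CharTwo.sub_eq_add,
    one_mul, one_mul, add_comm (w (i₂ r)) (w (i₁ r)), one_mul]

lemma d6d_tau_none (ha : ∀ i, ¬ 2 ∣ a i) (hs : ¬ 2 ∣ ∑ i, a i) (w : ι → ZMod 2) (j : ι) :
    tauX a i₁ i₂ lgl w j none = ∑ m, (w j + w m) * lgl m j := by
  unfold tauX
  refine sum_congr rfl fun m _ => ?_
  rw [d6d_asum a hs, d6d_a a ha, inv_one, CharTwo.sub_eq_add, one_mul, one_mul]

lemma d6d_tau_sum (ha : ∀ i, ¬ 2 ∣ a i) (hs : ¬ 2 ∣ ∑ i, a i) (hne : ∀ r, i₁ r ≠ i₂ r)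
    (hsym : ∀ i m, lgl i m = lgl m i) (w : ι → ZMod 2) (s : Option σ) :
    ∑ j, tauX a i₁ i₂ lgl w j s = 0 := by
  cases s with
  | none =>
    rw [Finset.sum_congr rfl fun j _ => d6d_tau_none a i₁ i₂ lgl ha hs w j]
    refine d6d_symm _ ?_ ?_
    · intro i m
      rw [add_comm (w i), hsym m i]
    · intro i
      rw [CharTwo.add_self_eq_zero, zero_mul]
  | some r =>
    have h := d6d_two (i₁ r) (i₂ r) (hne r) (fun _ => 1) (w (i₁ r) + w (i₂ r))
      (w (i₁ r) + w (i₂ r))
    simp only [one_mul] at h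
    rw [Finset.sum_congr rfl fun j _ => d6d_tau_some a i₁ i₂ lgl ha hs w j r, h]
    exact CharTwo.add_self_eq_zero _

lemma d6d_sq (y : ZMod 2) : y * y = y := by
  revert y
  decide

lemma d6d_P1 (ha : ∀ i, ¬ 2 ∣ a i) (hs : ¬ 2 ∣ ∑ i, a i) (hne : ∀ r, i₁ r ≠ i₂ r)
    (w : ι → ZMod 2) (r : σ) :
    ∑ i, w i * tauX a i₁ i₂ lgl w i (some r) = w (i₁ r) + w (i₂ r) := by
  rw [Finset.sum_congr rfl fun j _ => by rw [d6d_tau_some a i₁ i₂ lgl ha hs w j r],
    d6d_two _ _ (hne r)]
  rw [← add_mul]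
  exact d6d_sq _

lemma d6d_P2 (ha : ∀ i, ¬ 2 ∣ a i) (hs : ¬ 2 ∣ ∑ i, a i)
    (hsym : ∀ i m, lgl i m = lgl m i) (w : ι → ZMod 2) :
    ∑ i, w i * tauX a i₁ i₂ lgl w i none = ∑ i, w i * ∑ m ∈ univ.erase i, lgl i m := by
  have h1 : ∀ i, w i * tauX a i₁ i₂ lgl w i none =
      w i * (∑ m ∈ univ.erase i, lgl i m) + ∑ m, if m = i then 0 else w i * w m * lgl i m := by
    intro i
    rw [d6d_tau_none a i₁ i₂ lgl ha hs w i, Finset.mul_sum, Finset.mul_sum,
      ← Finset.add_sum_erase univ (fun m => w i * ((w i + w m) * lgl m i)) (Finset.mem_univ i),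
      ← Finset.add_sum_erase univ (fun m => if m = i then 0 else w i * w m * lgl i m)
        (Finset.mem_univ i), CharTwo.add_self_eq_zero, zero_mul, mul_zero, zero_add, if_pos rfl,
      zero_add, ← Finset.sum_add_distrib]
    refine sum_congr rfl fun m hm => ?_
    rw [if_neg (Finset.ne_of_mem_erase hm), hsym m i]
    have := d6d_sq (w i)
    linear_combination (lgl i m) * this
  rw [Finset.sum_congr rfl fun i _ => h1 i, Finset.sum_add_distrib]
  rw [d6d_symm (fun i m => if m = i then 0 else w i * w m * lgl i m), add_zero]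
  · intro i m
    by_cases h : m = i
    · rw [if_pos h, if_pos h.symm]
    · rw [if_neg h, if_neg (Ne.symm h), hsym m i]
      ring
  · intro i
    rw [if_pos rfl]

lemma d6d_P3 (hne : ∀ r, i₁ r ≠ i₂ r) (w : ι → ZMod 2) (r : σ) :
    ∑ i, w i * ∑ m ∈ univ.erase i, (if s(i₁ r, i₂ r) = s(i, m) then (1 : ZMod 2) else 0) =
      w (i₁ r) + w (i₂ r) := by
  have h1 : ∀ i, ∑ m ∈ univ.erase i, (if s(i₁ r, i₂ r) = s(i, m) then (1 : ZMod 2) else 0) =
      if i = i₁ r then 1 else if i = i₂ r then 1 else 0 := by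
    intro i
    by_cases h2 : i = i₁ r
    · subst h2
      rw [if_pos rfl, Finset.sum_eq_single (i₂ r)]
      · rw [if_pos rfl]
      · intro m _ hm
        rw [if_neg]
        intro h3
        rw [Sym2.eq_iff] at h3
        rcases h3 with h3 | h3
        · exact hm h3.2.symm
        · exact hne r h3.2.symm
      · intro h3
        exact absurd (Finset.mem_erase.2 ⟨(hne r).symm, Finset.mem_univ _⟩) h3
    · rw [if_neg h2]
      by_cases h3 : i = i₂ r
      · subst h3
        rw [if_pos rfl, Finset.sum_eq_single (i₁ r)]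
        · rw [if_pos Sym2.eq_swap]
        · intro m _ hm
          rw [if_neg]
          intro h3
          rw [Sym2.eq_iff] at h3
          rcases h3 with h3 | h3
          · exact hne r h3.1
          · exact hm h3.1.symm
        · intro h3
          exact absurd (Finset.mem_erase.2 ⟨hne r, Finset.mem_univ _⟩) h3
      · rw [if_neg h3]
        refine Finset.sum_eq_zero fun m _ => ?_
        rw [if_neg]
        intro h4
        rw [Sym2.eq_iff] at h4
        rcases h4 with h4 | h4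
        · exact h2 h4.1.symm
        · exact h3 h4.2.symm
  rw [Finset.sum_congr rfl fun i _ => by rw [h1 i], d6d_two _ _ (hne r), mul_one, mul_one]

lemma d6d_gP (hne : ∀ r, i₁ r ≠ i₂ r) (p : X.P) (w : ι → ZMod 2) :
    ∑ i, w i * ∑ m ∈ univ.erase i, gP i₁ i₂ lgl X p i m =
      ∑ r, X.xx p (some r) * (w (i₁ r) + w (i₂ r)) +
        X.xx p none * ∑ i, w i * ∑ m ∈ univ.erase i, lgl i m := by
  have h1 : ∀ i, w i * ∑ m ∈ univ.erase i, gP i₁ i₂ lgl X p i m =
      (∑ r, X.xx p (some r) * (w i * ∑ m ∈ univ.erase i,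
        if s(i₁ r, i₂ r) = s(i, m) then (1 : ZMod 2) else 0)) +
        X.xx p none * (w i * ∑ m ∈ univ.erase i, lgl i m) := by
    intro i
    have h2 : ∀ m, gP i₁ i₂ lgl X p i m = (∑ r, X.xx p (some r) *
        (if s(i₁ r, i₂ r) = s(i, m) then (1 : ZMod 2) else 0)) + X.xx p none * lgl i m := by
      intro m
      unfold gP
      rw [Finset.sum_filter]
      congr 1
      refine sum_congr rfl fun r _ => ?_
      rw [mul_ite, mul_one, mul_zero]
    rw [Finset.sum_congr rfl fun m _ => h2 m, Finset.sum_add_distrib, mul_add, Finset.sum_comm,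
      ← Finset.mul_sum]
    congr 1
    · rw [Finset.mul_sum]
      refine sum_congr rfl fun r _ => ?_
      rw [← Finset.mul_sum]
      ring
    · ring
  rw [Finset.sum_congr rfl fun i _ => h1 i, Finset.sum_add_distrib, Finset.sum_comm,
    ← Finset.mul_sum]
  congr 1
  refine sum_congr rfl fun r _ => ?_
  rw [← Finset.mul_sum, d6d_P3 i₁ i₂ hne w r]

/-- the local term of the quadratic form -/
def d6d_q (t : Pl X D) (w z : ι → ZMod 2) : ZMod 2 :=
  ∑ i, (w i * z i + w i * cx i₁ i₂ lgl dR sR X D t i + z i * cz i₁ i₂ lgl X D t i)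

/-- the ramified condition at a prime of `D`, for all indices -/
lemma d6d_ram (ha : ∀ i, ¬ 2 ∣ a i) (hs : ¬ 2 ∣ ∑ i, a i) (hne : ∀ r, i₁ r ≠ i₂ r)
    (hsym : ∀ i m, lgl i m = lgl m i) (p : X.P) (c : ZMod 2) (w z : ι → ZMod 2)
    (hw : ∑ i, w i = 0)
    (hz : ∀ i, z i = c * w i + ∑ s, tauX a i₁ i₂ lgl w i s * X.xx p s) :
    ∑ i, (w i * z i + w i * ∑ m ∈ univ.erase i, gP i₁ i₂ lgl X p i m) = 0 := by
  have h1 : ∀ i, w i * z i = c * w i + (X.xx p none * (w i * tauX a i₁ i₂ lgl w i none) +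
      ∑ r, X.xx p (some r) * (w i * tauX a i₁ i₂ lgl w i (some r))) := by
    intro i
    rw [hz i, mul_add, Fintype.sum_option, mul_add, Finset.mul_sum]
    have h2 : w i * (c * w i) = c * w i := by
      have := d6d_sq (w i)
      linear_combination c * this
    rw [h2]
    congr 1
    congr 1
    · ring
    · exact sum_congr rfl fun r _ => by ring
  rw [Finset.sum_add_distrib, Finset.sum_congr rfl fun i _ => h1 i, Finset.sum_add_distrib,
    Finset.sum_add_distrib, ← Finset.mul_sum, ← Finset.mul_sum, hw, mul_zero, zero_add,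
    Finset.sum_comm, d6d_P2 a i₁ i₂ lgl ha hs hsym w, d6d_gP i₁ i₂ lgl X hne p w]
  have h3 : ∀ r, ∑ i, X.xx p (some r) * (w i * tauX a i₁ i₂ lgl w i (some r)) =
      X.xx p (some r) * (w (i₁ r) + w (i₂ r)) := by
    intro r
    rw [← Finset.mul_sum, d6d_P1 a i₁ i₂ lgl ha hs hne w r]
  rw [Finset.sum_congr rfl fun r _ => h3 r, add_comm (X.xx p none * _)]
  exact CharTwo.add_self_eq_zero _

lemma d6d_cx (hne : ∀ r, i₁ r ≠ i₂ r) (hsym : ∀ i m, lgl i m = lgl m i)
    (hlam : ∀ r m, m ≠ i₁ r → m ≠ i₂ r →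
      lam i₁ i₂ lgl dR sR r (i₁ r) m = lam i₁ i₂ lgl dR sR r (i₂ r) m) (r : σ) :
    ∑ m ∈ univ.erase (i₁ r), lam i₁ i₂ lgl dR sR r (i₁ r) m =
      ∑ m ∈ univ.erase (i₂ r), lam i₁ i₂ lgl dR sR r (i₂ r) m := by
  have h1 : i₂ r ∈ univ.erase (i₁ r) := Finset.mem_erase.2 ⟨(hne r).symm, Finset.mem_univ _⟩
  have h2 : i₁ r ∈ univ.erase (i₂ r) := Finset.mem_erase.2 ⟨hne r, Finset.mem_univ _⟩
  rw [← Finset.add_sum_erase _ _ h1, ← Finset.add_sum_erase _ _ h2]
  congr 1
  · unfold lam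
    rw [hsym (i₁ r) (i₂ r), Sym2.eq_swap (a := i₁ r) (b := i₂ r)]
  · rw [Finset.erase_right_comm]
    refine sum_congr rfl fun m hm => ?_
    rw [Finset.mem_erase, Finset.mem_erase] at hm
    exact hlam r m hm.1 hm.2.1

lemma d6d_bad (hne : ∀ r, i₁ r ≠ i₂ r) (r : σ) (w z : ι → ZMod 2)
    (hw : ∑ i, w i = 0) (hw0 : ∀ m, m ≠ i₁ r → m ≠ i₂ r → w m = 0) (g : ι → ZMod 2)
    (hg : g (i₁ r) = g (i₂ r)) (c : ZMod 2)
    (hz : z (i₁ r) - z (i₂ r) = w (i₂ r) * c) :
    ∑ i, (w i * z i + w i * g i +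
      z i * ((if i = i₁ r then 1 else 0) + if i = i₂ r then 1 else 0)) = 0 := by
  have h1 : w (i₁ r) = w (i₂ r) := by
    rw [Finset.sum_eq_add (i₁ r) (i₂ r) (hne r) (fun m _ hm => hw0 m hm.1 hm.2)
      (fun h => absurd (Finset.mem_univ _) h) (fun h => absurd (Finset.mem_univ _) h)] at hw
    exact CharTwo.add_eq_zero.1 hw
  rw [Finset.sum_eq_add (i₁ r) (i₂ r) (hne r) (fun m _ hm => by
      rw [hw0 m hm.1 hm.2, if_neg hm.1, if_neg hm.2]; ring)
      (fun h => absurd (Finset.mem_univ _) h) (fun h => absurd (Finset.mem_univ _) h)]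
  rw [if_pos rfl, if_neg (hne r), if_neg (hne r).symm, if_pos rfl, h1, hg]
  rw [CharTwo.sub_eq_add] at hz
  have h2 : z (i₁ r) = w (i₂ r) * c + z (i₂ r) := by
    rw [← hz, add_assoc, CharTwo.add_self_eq_zero, add_zero]
  rw [h2]
  generalize w (i₂ r) = b
  generalize z (i₂ r) = y
  generalize g (i₂ r) = g
  clear hz h2 hw hw0 hg h1
  revert b y g c
  decide

lemma d6d_local (ha : ∀ i, ¬ 2 ∣ a i) (hs : ¬ 2 ∣ ∑ i, a i) (hne : ∀ r, i₁ r ≠ i₂ r)
    (hsym : ∀ i m, lgl i m = lgl m i) (N : ZMod 2)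
    (hlam : ∀ r m, m ≠ i₁ r → m ≠ i₂ r →
      lam i₁ i₂ lgl dR sR r (i₁ r) m = lam i₁ i₂ lgl dR sR r (i₂ r) m)
    (κ : Option σ → ZMod 2) (ram : Prop) (t : Pl X D) (x z : {j : ι // j ≠ i₀} → ZMod 2)
    (hx : locC a i₀ i₁ i₂ lgl dR sR X D N κ ram t x z) :
    d6d_q i₁ i₂ lgl dR sR X D t (ext a i₀ x) (ext a i₀ z) = 0 := by
  have hxs := d6d_sum_ext a i₀ ha x
  have hzs := d6d_sum_ext a i₀ ha z
  unfold d6d_q
  rcases t with (_ | r) | p
  · -- infinity
    obtain ⟨h1, h2⟩ := hx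
    have hc : ∀ i, ext a i₀ x i * ext a i₀ z i +
        ext a i₀ x i * cx i₁ i₂ lgl dR sR X D (Sum.inl none) i +
        ext a i₀ z i * cz i₁ i₂ lgl X D (Sum.inl none) i =
        ext a i₀ z i * ext a i₀ x i + ext a i₀ z i * ∑ m ∈ univ.erase i, lgl i m := by
      intro i
      change _ + ext a i₀ x i * 0 + ext a i₀ z i * (∑ m ∈ univ.erase i, lgl i m) = _
      ring
    rw [Finset.sum_congr rfl fun i _ => hc i]
    by_cases hk : κ none + N = 0
    · have hz : z = 0 := funext (h1 hk)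
      subst hz
      exact Finset.sum_eq_zero fun i _ => by rw [ext_zero]; ring
    · have hk1 : κ none + N = 1 := by
        generalize κ none + N = y at hk
        revert y
        decide
      have h3 := h2 hk
      have h4 : ext a i₀ x = fun i => tauX a i₁ i₂ lgl (ext a i₀ z) i none := by
        have h5 : x = fun j => tauX a i₁ i₂ lgl (ext a i₀ z) j.1 none := by
          funext j
          rw [h3 j, hk1]
          change tauX a i₁ i₂ lgl (ext a i₀ (fun j => (1 : ZMod 2)⁻¹ * z j)) j.1 none = _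
          rw [inv_one]
          simp only [one_mul]
        rw [h5]
        exact d6d_ext a i₀ ha (fun i => tauX a i₁ i₂ lgl (ext a i₀ z) i none)
          (d6d_tau_sum a i₁ i₂ lgl ha hs hne hsym _ _)
      rw [Finset.sum_add_distrib, h4, d6d_P2 a i₁ i₂ lgl ha hs hsym]
      exact CharTwo.add_self_eq_zero _
  · -- a bad prime
    obtain ⟨h1, h2⟩ := hx
    exact d6d_bad i₁ i₂ hne r (ext a i₀ x) (ext a i₀ z) hxs h1
      (fun i => ∑ m ∈ univ.erase i, lam i₁ i₂ lgl dR sR r i m)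
      (d6d_cx i₁ i₂ lgl dR sR hne hsym hlam r) _ h2
  · -- a prime of `D`
    obtain ⟨h1, h2⟩ := hx
    have hc : ∀ i, ext a i₀ x i * ext a i₀ z i +
        ext a i₀ x i * cx i₁ i₂ lgl dR sR X D (Sum.inr p) i +
        ext a i₀ z i * cz i₁ i₂ lgl X D (Sum.inr p) i =
        ext a i₀ x i * ext a i₀ z i +
          ext a i₀ x i * ∑ m ∈ univ.erase i, gP i₁ i₂ lgl X p.1 i m := by
      intro i
      change _ + ext a i₀ x i * (∑ m ∈ univ.erase i, gP i₁ i₂ lgl X p.1 i m) +
        ext a i₀ z i * 0 = _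
      ring
    rw [Finset.sum_congr rfl fun i _ => hc i]
    by_cases hr : ram
    · refine d6d_ram a i₁ i₂ lgl X ha hs hne hsym p.1
        (∑ p' : D, if p' = p then 0 else X.sym p'.1 p.1) _ _ hxs ?_
      have h3 := h1 hr
      have h5 : z = fun j => (fun i => (∑ p' : D, if p' = p then 0 else X.sym p'.1 p.1) *
          ext a i₀ x i + ∑ s, tauX a i₁ i₂ lgl (ext a i₀ x) i s * X.xx p.1 s) j.1 := by
        funext j
        rw [h3 j]
        have h6 : ext a i₀ x j.1 = x j := by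
          unfold ext
          rw [dif_neg j.2]
        change _ = _ * ext a i₀ x j.1 + _
        rw [h6]
        rfl
      have h7 := d6d_ext a i₀ ha (fun i => (∑ p' : D, if p' = p then 0 else X.sym p'.1 p.1) *
          ext a i₀ x i + ∑ s, tauX a i₁ i₂ lgl (ext a i₀ x) i s * X.xx p.1 s) (by
        rw [Finset.sum_add_distrib, ← Finset.mul_sum, hxs, mul_zero, zero_add, Finset.sum_comm]
        refine Finset.sum_eq_zero fun s _ => ?_
        rw [← Finset.sum_mul, d6d_tau_sum a i₁ i₂ lgl ha hs hne hsym, zero_mul])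
      intro i
      rw [← h5] at h7
      exact congrFun h7 i
    · have hz : x = 0 := funext (h2 hr)
      subst hz
      exact Finset.sum_eq_zero fun i _ => by rw [ext_zero]; ring

/-- D6d: the quadratic form vanishes on the local conditions -/
theorem qQ_loc (ha : ∀ i, ¬ 2 ∣ a i) (hs : ¬ 2 ∣ ∑ i, a i) (hne : ∀ r, i₁ r ≠ i₂ r)
    (hsym : ∀ i m, lgl i m = lgl m i) (N : ZMod 2)
    (hlam : ∀ r m, m ≠ i₁ r → m ≠ i₂ r →
      lam i₁ i₂ lgl dR sR r (i₁ r) m = lam i₁ i₂ lgl dR sR r (i₂ r) m)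
    (κ : Option σ → ZMod 2) (ram : Prop) (x : QV i₀ X D)
    (hx : ∀ t, locC a i₀ i₁ i₂ lgl dR sR X D N κ ram t (x.1 t) (x.2 t)) :
    qQ a i₀ i₁ i₂ lgl dR sR X D x = 0 := by
  unfold qQ
  exact Finset.sum_eq_zero fun t _ =>
    d6d_local a i₀ i₁ i₂ lgl dR sR X D ha hs hne hsym N hlam κ ram t _ _ (hx t)

lemma d6d_third (ha : ∀ i, ¬ 2 ∣ a i) (hs : ¬ 2 ∣ ∑ i, a i) (i m : ι) (him : i ≠ m) :
    ∃ j, j ≠ i ∧ j ≠ m := by
  by_contra hcon
  push Not at hcon
  have h1 := d6d_asum a hs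
  unfold asum at h1
  rw [Finset.sum_eq_add i m him (fun c _ hc => absurd (hcon c hc.1) hc.2)
      (fun h => absurd (Finset.mem_univ _) h) (fun h => absurd (Finset.mem_univ _) h),
    d6d_a a ha, d6d_a a ha] at h1
  exact absurd h1 (by decide)

lemma d6d_W (i m : ι) :
    ∑ j, ((if j = i then (1 : ZMod 2) else 0) + if j = m then 1 else 0) = 0 := by
  rw [Finset.sum_add_distrib, Finset.sum_ite_eq' univ, Finset.sum_ite_eq' univ,
    if_pos (Finset.mem_univ _), if_pos (Finset.mem_univ _)]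
  exact CharTwo.add_self_eq_zero _

/-- the local space at a bad prime -/
lemma d6d_space_bad (ha : ∀ i, ¬ 2 ∣ a i) (hs : ¬ 2 ∣ ∑ i, a i) (hne : ∀ r, i₁ r ≠ i₂ r)
    (r : σ) (c : ZMod 2) :
    ∃ L : Submodule (ZMod 2)
      (({j : ι // j ≠ i₀} → ZMod 2) × ({j : ι // j ≠ i₀} → ZMod 2)),
      (∀ x z, (x, z) ∈ L ↔ (∀ m, m ≠ i₁ r → m ≠ i₂ r → ext a i₀ x m = 0) ∧
        ext a i₀ z (i₁ r) - ext a i₀ z (i₂ r) = ext a i₀ x (i₂ r) * c) ∧
      finrank (ZMod 2) L = finrank (ZMod 2) ({j : ι // j ≠ i₀} → ZMod 2) := by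
  have hlin : ∀ i : ι, ∃ g : ({j : ι // j ≠ i₀} → ZMod 2) →ₗ[ZMod 2] ZMod 2,
      ∀ x, g x = ext a i₀ x i := fun i =>
    ⟨AddMonoidHom.toZModLinearMap 2
      { toFun := fun x => ext a i₀ x i
        map_zero' := ext_zero a i₀ i
        map_add' := fun x y => congrFun (ext_add a i₀ x y) i }, fun _ => rfl⟩
  obtain ⟨g1, hg1⟩ := hlin (i₁ r)
  obtain ⟨g2, hg2⟩ := hlin (i₂ r)
  obtain ⟨m₃, h31, h32⟩ := d6d_third a ha hs (i₁ r) (i₂ r) (hne r)
  have hW := d6d_ext a i₀ ha _ (d6d_W (i₁ r) (i₂ r))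
  have hW0 := d6d_ext a i₀ ha _ (d6d_W (i₁ r) m₃)
  set e : {j : ι // j ≠ i₀} → ZMod 2 :=
    fun j => (if j.1 = i₁ r then (1 : ZMod 2) else 0) + if j.1 = i₂ r then 1 else 0 with he
  set z₀ : {j : ι // j ≠ i₀} → ZMod 2 :=
    fun j => (if j.1 = i₁ r then (1 : ZMod 2) else 0) + if j.1 = m₃ then 1 else 0 with hz₀
  have he0 : e ≠ 0 := by
    intro h
    have h1 := congrFun hW (i₁ r)
    rw [h, ext_zero, if_pos rfl, if_neg (hne r)] at h1
    exact absurd h1 (by decide)
  have hφ : (g1 - g2) z₀ = 1 := by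
    have e1 := congrFun hW0 (i₁ r)
    have e2 := congrFun hW0 (i₂ r)
    rw [if_pos rfl, if_neg h31.symm, add_zero] at e1
    rw [if_neg (hne r).symm, if_neg h32.symm, add_zero] at e2
    rw [LinearMap.sub_apply, hg1, hg2, e1, e2, sub_zero]
  obtain ⟨L, hL, hf⟩ := d6d_line (K := ZMod 2) e z₀ he0 (g1 - g2) (c • g2) hφ
  refine ⟨L, fun x z => (hL x z).trans ?_, hf⟩
  have h1 : (g1 - g2) z = (c • g2) x ↔
      ext a i₀ z (i₁ r) - ext a i₀ z (i₂ r) = ext a i₀ x (i₂ r) * c := by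
    rw [LinearMap.sub_apply, hg1, hg2, LinearMap.smul_apply, hg2, smul_eq_mul, mul_comm]
  rw [h1]
  refine and_congr ?_ Iff.rfl
  constructor
  · rintro ⟨t, rfl⟩ m hm1 hm2
    have h2 : ext a i₀ (t • e) m = t * ext a i₀ e m := d6d_ext_smul a i₀ t e m
    have h3 := congrFun hW m
    rw [if_neg hm1, if_neg hm2, add_zero] at h3
    rw [h2, h3, mul_zero]
  · intro h
    refine ⟨ext a i₀ x (i₁ r), funext fun j => ?_⟩
    have hs := d6d_sum_ext a i₀ ha x
    rw [Finset.sum_eq_add (i₁ r) (i₂ r) (hne r) (fun m _ hm => h m hm.1 hm.2)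
      (fun h => absurd (Finset.mem_univ _) h) (fun h => absurd (Finset.mem_univ _) h)] at hs
    have h12 := CharTwo.add_eq_zero.1 hs
    have h6 : x j = ext a i₀ x j.1 := by
      unfold ext
      rw [dif_neg j.2]
    have h7 : (ext a i₀ x (i₁ r) • e) j = ext a i₀ x (i₁ r) *
        ((if j.1 = i₁ r then (1 : ZMod 2) else 0) + if j.1 = i₂ r then 1 else 0) := rfl
    rw [h6, h7]
    by_cases h3 : j.1 = i₁ r
    · rw [h3, if_pos rfl, if_neg (hne r), add_zero, mul_one]
    · rw [if_neg h3, zero_add]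
      by_cases h4 : j.1 = i₂ r
      · rw [if_pos h4, h4, mul_one, h12]
      · rw [if_neg h4, mul_zero, h j.1 h3 h4]

/-- the local space at one place -/
lemma d6d_space (ha : ∀ i, ¬ 2 ∣ a i) (hs : ¬ 2 ∣ ∑ i, a i) (hne : ∀ r, i₁ r ≠ i₂ r)
    (N : ZMod 2) (κ : Option σ → ZMod 2) (ram : Prop) (t : Pl X D) :
    ∃ L : Submodule (ZMod 2)
      (({j : ι // j ≠ i₀} → ZMod 2) × ({j : ι // j ≠ i₀} → ZMod 2)),
      (∀ x z, (x, z) ∈ L ↔ locC a i₀ i₁ i₂ lgl dR sR X D N κ ram t x z) ∧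
      finrank (ZMod 2) L = Fintype.card {j : ι // j ≠ i₀} := by
  have hcard : finrank (ZMod 2) ({j : ι // j ≠ i₀} → ZMod 2) =
      Fintype.card {j : ι // j ≠ i₀} := Module.finrank_fintype_fun_eq_card _
  rw [← hcard]
  rcases t with (_ | r) | p
  · by_cases hk : κ none + N = 0
    · obtain ⟨L, hL, hf⟩ := d6d_graph1 (0 : ({j : ι // j ≠ i₀} → ZMod 2) →ₗ[ZMod 2]
        ({j : ι // j ≠ i₀} → ZMod 2))
      refine ⟨L, fun x z => (hL x z).trans ?_, hf⟩
      rw [LinearMap.zero_apply]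
      constructor
      · rintro rfl
        exact ⟨fun _ _ => rfl, fun h => absurd hk h⟩
      · intro h
        exact funext (h.1 hk)
    · obtain ⟨L, hL, hf⟩ := d6d_graph2 (V := {j : ι // j ≠ i₀} → ZMod 2) (K := ZMod 2)
        (AddMonoidHom.toZModLinearMap 2
          { toFun := fun z j => tau a i₀ i₁ i₂ lgl (fun j => (κ none + N)⁻¹ * z j) j none
            map_zero' := by
              have h : (fun j => (κ none + N)⁻¹ * (0 : {j : ι // j ≠ i₀} → ZMod 2) j) = 0 :=
                funext fun j => mul_zero _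
              rw [h, map_zero]
              rfl
            map_add' := by
              intro z z'
              have h : (fun j => (κ none + N)⁻¹ * (z + z') j) =
                  (fun j => (κ none + N)⁻¹ * z j) + fun j => (κ none + N)⁻¹ * z' j :=
                funext fun j => mul_add _ _ _
              rw [h, map_add]
              rfl })
      refine ⟨L, fun x z => (hL x z).trans ?_, hf⟩
      constructor
      · intro h
        refine ⟨fun h' => absurd h' hk, fun _ j => ?_⟩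
        rw [h]
        rfl
      · intro h
        exact funext (h.2 hk)
  · exact d6d_space_bad a i₀ i₁ i₂ ha hs hne r _
  · by_cases hr : ram
    · obtain ⟨L, hL, hf⟩ := d6d_graph1 (V := {j : ι // j ≠ i₀} → ZMod 2) (K := ZMod 2)
        (AddMonoidHom.toZModLinearMap 2
          { toFun := fun x j => (∑ p' : D, if p' = p then 0 else X.sym p'.1 p.1) * x j +
              ∑ s, tau a i₀ i₁ i₂ lgl x j s * X.xx p.1 s
            map_zero' := by
              funext j
              rw [map_zero]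
              simp
            map_add' := by
              intro z z'
              funext j
              rw [map_add]
              simp only [Pi.add_apply, mul_add, add_mul, Finset.sum_add_distrib]
              ring })
      refine ⟨L, fun x z => (hL x z).trans ?_, hf⟩
      constructor
      · intro h
        refine ⟨fun _ j => ?_, fun h' => absurd hr h'⟩
        rw [h]
        rfl
      · intro h
        exact funext (h.1 hr)
    · obtain ⟨L, hL, hf⟩ := d6d_graph2 (0 : ({j : ι // j ≠ i₀} → ZMod 2) →ₗ[ZMod 2]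
        ({j : ι // j ≠ i₀} → ZMod 2))
      refine ⟨L, fun x z => (hL x z).trans ?_, hf⟩
      rw [LinearMap.zero_apply]
      constructor
      · rintro rfl
        exact ⟨fun h => absurd h hr, fun _ _ => rfl⟩
      · intro h
        exact funext (h.2 hr)

/-- D6d: the local conditions define a subspace of half dimension -/
theorem exists_LC (ha : ∀ i, ¬ 2 ∣ a i) (hs : ¬ 2 ∣ ∑ i, a i) (hne : ∀ r, i₁ r ≠ i₂ r)
    (N : ZMod 2) (κ : Option σ → ZMod 2) (ram : Prop) :
    ∃ L : Submodule (ZMod 2) (QV i₀ X D),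
      (∀ x, x ∈ L ↔ ∀ t, locC a i₀ i₁ i₂ lgl dR sR X D N κ ram t (x.1 t) (x.2 t)) ∧
      finrank (ZMod 2) L = Fintype.card (Pl X D) * Fintype.card {j : ι // j ≠ i₀} := by
  choose L hL hf using d6d_space a i₀ i₁ i₂ lgl dR sR X D ha hs hne N κ ram
  let f : (∀ t, L t) →ₗ[ZMod 2] QV i₀ X D :=
    { toFun := fun y => (fun t => (y t).1.1, fun t => (y t).1.2)
      map_add' := fun _ _ => rfl
      map_smul' := fun _ _ => rfl }
  have hfi : Function.Injective f := by
    intro y y' h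
    funext t
    refine Subtype.ext (Prod.ext ?_ ?_)
    · exact congrFun (congrArg Prod.fst h) t
    · exact congrFun (congrArg Prod.snd h) t
  refine ⟨LinearMap.range f, ?_, ?_⟩
  · intro x
    rw [LinearMap.mem_range]
    constructor
    · rintro ⟨y, rfl⟩ t
      rw [← hL]
      exact (y t).2
    · intro h
      exact ⟨fun t => ⟨(x.1 t, x.2 t), (hL t _ _).2 (h t)⟩, rfl⟩
  · rw [LinearMap.finrank_range_of_inj hfi, Module.finrank_pi_fintype,
      Finset.sum_congr rfl fun t _ => hf t, Finset.sum_const, Finset.card_univ, smul_eq_mul]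

end Twist

end Pool.Agent.Helper54.PT
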